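import Mathlib
import Pool.Agent.Q197.WirsingD

set_option autoImplicit false

/-!
# The number of odd perfect numbers up to `x`

* The number of odd perfect numbers `≤ x` is at most
  `2 ^ (log x / (2 (log log x + θ log log log x)))` for every `θ < 1` and all large `x`.
* A weighted form of Wirsing's theorem: the odd perfect numbers `N ≤ x` are counted with the product of
  the weights `w (v_p(N))` over the prime factors `p` of `N` with an even exponent.

The numbers are reconstructed from the sequence of their exponents (Wirsing), and the sums over the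
exponents are estimated with Rankin's trick.  For the first part the sieve bound for the primes with
exponent 2 is used: few of them are smaller than `log x * log log x`.
-/

namespace Pool.Agent.Results.MP_f02ea4_nt.CountByExponents

/-- **Main theorem.** -/
theorem result :
    (∀ θ : ℝ, 0 ≤ θ → θ < 1 → ∃ x₀ : ℝ, ∀ x : ℝ, x₀ ≤ x →
      (({N : ℕ | Odd N ∧ N.Perfect ∧ (N : ℝ) ≤ x}.ncard : ℕ) : ℝ) ≤
        Real.exp (Real.log 2 / 2 * (Real.log x /
          (Real.log (Real.log x) + θ * Real.log (Real.log (Real.log x)))))) ∧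
    (∀ (w : ℕ → ℝ) (W c : ℝ), 0 < c → (∀ e, 0 ≤ w e ∧ w e ≤ W) →
      (∀ F : Finset ℕ, (∀ e ∈ F, 0 < e ∧ Even e) →
        ∑ e ∈ F, w e * Real.exp (-(c * e)) ≤ 1) →
      ∀ ε : ℝ, 0 < ε → ∃ x₀ : ℝ, ∀ x : ℝ, x₀ ≤ x →
        ∀ T : Finset ℕ, (∀ N ∈ T, Odd N ∧ N.Perfect ∧ (N : ℝ) ≤ x) →
          ∑ N ∈ T, ∏ p ∈ N.primeFactors with Even (N.factorization p), w (N.factorization p) ≤
            Real.exp ((c + ε) * (Real.log x / Real.log (Real.log x)))) := by
  refine ⟨?_, ?_⟩
  · intro θ h0 h1
    obtain ⟨x₀, hx₀⟩ := Pool.Agent.Q197.WirsingD.sharp θ h0 h1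
    refine ⟨x₀, fun x hx => ?_⟩
    have hfin : {N : ℕ | Odd N ∧ N.Perfect ∧ (N : ℝ) ≤ x}.Finite := by
      apply (Set.finite_Iic ⌊x⌋₊).subset
      rintro N ⟨_, _, h⟩
      exact Nat.le_floor h
    rw [Set.ncard_eq_toFinset_card _ hfin]
    apply hx₀ x hx
    intro N hN
    exact hfin.mem_toFinset.1 hN
  · intro w W c hc hw hsum ε hε
    exact Pool.Agent.Q197.WirsingB.weighted w W c hc (fun e => (hw e).1) (fun e => (hw e).2)
      hsum ε hε

end Pool.Agent.Results.MP_f02ea4_nt.CountByExponents
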