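import Mathlib
import Pool.Agent.Y959.Sv.Main

set_option autoImplicit false

/-!
# The largest prime power component of an odd perfect number

Let `M` be the largest of the numbers `p ^ a`, `p ^ a ∥ N`, where `N` is an odd perfect number.  Since
the exponents of all primes but one are at least two, a trivial bound is `M ≥ c (log N) ^ 2`.  We show
`M ≥ c (log N · log log N) ^ 4`.

Let `x` be about `M ^ (1 / 4)`.  The primes `p > x` have exponent two (with one exception).  At most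
`log M / log 3` of those are `≡ 1 (mod 3)`, because `3` divides `σ(p ^ 2)` for these and `3 ^ a ≤ M`.
The prime factors of `σ(p ^ 2) = p ^ 2 + p + 1`, for the `p ≡ 2 (mod 3)`, are `≡ 1 (mod 3)`, so the
product over these `p` is at most the product of all the other components.  The primes between
`√ x` and `x` have exponent at most `7`, hence by the sieve there are only `O(x / (log x) ^ 2)` of them.
-/

namespace Pool.Agent.Results.MP_f02ea4_nt.LargestComponent
open Finset
open Pool.Agent.Y959.Opn (Dat sg dat_of_perfect sg_ge one_odd prod_pow_eq)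
open Pool.Agent.Y959.Sv (count_bad)

lemma sg_two {e : ℕ → ℕ} {p : ℕ} (h : e p = 2) : sg e p = p ^ 2 + p + 1 := by
  unfold sg
  rw [h]
  simp [Finset.sum_range_succ]
  ring

/-- the prime factors of `p ^ 2 + p + 1` -/
lemma fac {p r : ℕ} (hr : r.Prime) (hr3 : r ≠ 3) (h : r ∣ p ^ 2 + p + 1) : r % 3 = 1 := by
  have : Fact r.Prime := ⟨hr⟩
  have h0 : ((p : ZMod r)) ^ 2 + p + 1 = 0 := by
    have := (ZMod.natCast_eq_zero_iff (p ^ 2 + p + 1) r).2 h
    push_cast at this
    exact this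
  have h3 : (p : ZMod r) ^ 3 = 1 := by linear_combination ((p : ZMod r) - 1) * h0
  have h1 : (p : ZMod r) ≠ 1 := by
    intro h1
    rw [h1] at h0
    have h4 : ((3 : ℕ) : ZMod r) = 0 := by
      push_cast
      linear_combination h0
    rw [ZMod.natCast_eq_zero_iff] at h4
    exact hr3 ((Nat.prime_dvd_prime_iff_eq hr Nat.prime_three).1 h4)
  have hp0 : (p : ZMod r) ≠ 0 := by
    intro h2
    rw [h2] at h0
    simp at h0
  have hord : orderOf (p : ZMod r) = 3 := by
    apply orderOf_eq_prime h3 h1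
  have hdvd : 3 ∣ r - 1 := by
    rw [← hord]
    exact ZMod.orderOf_dvd_card_sub_one hp0
  have := hr.two_le
  omega

variable {S : Finset ℕ} {e : ℕ → ℕ}

/-- the primes `≡ 1 (mod 3)` with exponent two -/
lemma T1_bound (h : Dat S e) {T : Finset ℕ} (hT : T ⊆ S) (h2 : ∀ p ∈ T, e p = 2)
    (h1 : ∀ p ∈ T, p % 3 = 1) {M : ℕ} (hM : ∀ p ∈ S, p ^ e p ≤ M) (hM1 : 1 ≤ M) :
    3 ^ T.card ≤ M := by
  classical
  have ha : 3 ^ T.card ∣ ∏ p ∈ T, sg e p := by
    rw [← Finset.prod_const]
    apply Finset.prod_dvd_prod_of_dvd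
    intro p hp
    rw [sg_two (h2 p hp)]
    have := h1 p hp
    rw [Nat.dvd_iff_mod_eq_zero, Nat.add_mod, Nat.add_mod (p ^ 2), Nat.pow_mod, this]
  have hb : 3 ^ T.card ∣ 2 * ∏ p ∈ S, p ^ e p := by
    rw [← h.perf]
    exact ha.trans (Finset.prod_dvd_prod_of_subset _ _ _ hT)
  have hc : 3 ^ T.card ∣ ∏ p ∈ S, p ^ e p :=
    (Nat.Coprime.pow_left _ (by norm_num)).dvd_of_dvd_mul_left hb
  have hcop : ∀ U : Finset ℕ, U ⊆ S → 3 ∉ U → Nat.Coprime (3 ^ T.card) (∏ p ∈ U, p ^ e p) := by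
    intro U hU h3
    apply Nat.Coprime.pow_left
    apply Nat.Coprime.prod_right
    intro p hp
    apply Nat.Coprime.pow_right
    rw [Nat.coprime_primes Nat.prime_three (h.prime p (hU hp))]
    rintro rfl
    exact h3 hp
  by_cases h3 : 3 ∈ S
  · rw [← Finset.mul_prod_erase S _ h3] at hc
    have hd := (hcop (S.erase 3) (Finset.erase_subset _ _) (Finset.notMem_erase _ _)).dvd_of_dvd_mul_right hc
    exact (Nat.le_of_dvd (by positivity) hd).trans (hM 3 h3)
  · have hd := Nat.Coprime.eq_one_of_dvd (hcop S (Finset.Subset.refl _) h3) hc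
    omega

/-- the primes `≡ 2 (mod 3)` with exponent two -/
lemma T2_bound (h : Dat S e) {T : Finset ℕ} (hT : T ⊆ S) (h2 : ∀ p ∈ T, e p = 2)
    (h1 : ∀ p ∈ T, p % 3 = 2) : ∏ p ∈ T, p ^ e p ≤ ∏ p ∈ S \ T, p ^ e p := by
  classical
  have hpos : 0 < ∏ p ∈ S \ T, p ^ e p :=
    Finset.prod_pos fun p hp => pow_pos (h.prime p (Finset.mem_sdiff.1 hp).1).pos _
  have ha : ∏ p ∈ T, sg e p ∣ 2 * ∏ p ∈ S, p ^ e p := by
    rw [← h.perf]
    exact Finset.prod_dvd_prod_of_subset _ _ _ hT
  rw [← Finset.prod_sdiff hT] at ha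
  have hcop2 : Nat.Coprime (∏ p ∈ T, sg e p) 2 := by
    apply Nat.Coprime.prod_left
    intro p hp
    rw [sg_two (h2 p hp), Nat.coprime_two_right]
    rcases Nat.even_or_odd p with hp' | hp'
    · rw [Nat.odd_add_one, Nat.not_odd_iff_even]
      exact (hp'.pow_of_ne_zero (by norm_num)).add hp'
    · rw [Nat.odd_add_one, Nat.not_odd_iff_even]
      exact hp'.pow.add_odd hp'
  have hcopT : Nat.Coprime (∏ p ∈ T, sg e p) (∏ p ∈ T, p ^ e p) := by
    apply Nat.Coprime.prod_left
    intro p hp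
    apply Nat.Coprime.prod_right
    intro r hr
    apply Nat.Coprime.pow_right
    rw [sg_two (h2 p hp), Nat.coprime_comm, Nat.Prime.coprime_iff_not_dvd (h.prime r (hT hr))]
    intro hd
    have hr2 := h1 r hr
    have := fac (h.prime r (hT hr)) (by rintro rfl; simp at hr2) hd
    omega
  have hb : ∏ p ∈ T, sg e p ∣ ∏ p ∈ S \ T, p ^ e p := by
    have := hcop2.dvd_of_dvd_mul_left ha
    exact hcopT.dvd_of_dvd_mul_right this
  calc ∏ p ∈ T, p ^ e p ≤ ∏ p ∈ T, sg e p := Finset.prod_le_prod' fun p _ => sg_ge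
    _ ≤ _ := Nat.le_of_dvd hpos hb

lemma prod_eq {N : ℕ} (hN0 : N ≠ 0) : ∏ p ∈ N.primeFactors, p ^ (N.factorization p) = N := by
  conv_rhs => rw [← Nat.prod_factorization_pow_eq_self hN0]
  rfl

/-- the main inequality -/
lemma main : ∃ K : ℝ, 1 ≤ K ∧ ∀ N : ℕ, Odd N → N.Perfect → ∀ M : ℕ,
    (∀ p ∈ N.primeFactors, p ^ N.factorization p ≤ M) → ∀ x : ℕ,
    x = max 3 (Nat.sqrt (Nat.sqrt M)) → Real.log N ≤ K * (x / Real.log x) := by
  classical
  obtain ⟨C1, hC1, hcnt⟩ := count_bad 8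
  refine ⟨16 * (2080 + C1), by linarith, fun N hodd hperf M hM x hx => ?_⟩
  have hd := dat_of_perfect hodd hperf
  have hN0 : N ≠ 0 := hperf.2.ne'
  have hNe := prod_eq hN0
  have hsum := (Nat.perfect_iff_sum_divisors_eq_two_mul hperf.2).1 hperf
  have hN1 : N ≠ 1 := by
    rintro rfl
    simp at hsum
  -- size of `M`
  have hM1 : 1 ≤ M := by
    have hq : N.minFac ∈ N.primeFactors :=
      Nat.mem_primeFactors.2 ⟨Nat.minFac_prime hN1, Nat.minFac_dvd N, hN0⟩
    exact (Nat.one_le_pow _ _ (Nat.minFac_prime hN1).pos).trans (hM _ hq)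
  have hx3 : 3 ≤ x := by rw [hx]; exact le_max_left _ _
  have hx4 : ∀ p : ℕ, x < p → M < p ^ 4 := by
    intro p hp
    have h1 : Nat.sqrt (Nat.sqrt M) < p := lt_of_le_of_lt (by rw [hx]; exact le_max_right _ _) hp
    have h2 : Nat.sqrt M < p ^ 2 := by
      rw [Nat.sqrt_lt'] at h1; exact h1
    have h3 : M < (p ^ 2) ^ 2 := by
      rw [Nat.sqrt_lt'] at h2; exact h2
    rw [← pow_mul] at h3
    exact h3
  set y : ℕ := Nat.sqrt x with hy
  have hy8 : ∀ p : ℕ, y < p → M < p ^ 8 := by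
    intro p hp
    have h1 : x < p ^ 2 := by
      rw [hy, Nat.sqrt_lt'] at hp; exact hp
    have h2 := hx4 (p ^ 2) h1
    rw [← pow_mul] at h2
    exact h2
  -- the partition
  set S := N.primeFactors with hS
  set e : ℕ → ℕ := fun p => N.factorization p with he
  set A0 := S.filter (fun p => p ≤ y) with hA0
  set A1 := S.filter (fun p => y < p ∧ p ≤ x) with hA1
  set Ao := S.filter (fun p => x < p ∧ Odd (e p)) with hAo
  set T1 := S.filter (fun p => x < p ∧ ¬ Odd (e p) ∧ p % 3 = 1) with hT1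
  set T2 := S.filter (fun p => x < p ∧ ¬ Odd (e p) ∧ p % 3 = 2) with hT2
  have hexp : ∀ p ∈ S, x < p → ¬ Odd (e p) → e p = 2 := by
    intro p hp hxp ho
    have h1 := hd.pos p hp
    have h2 : e p < 4 := by
      by_contra h3
      have h4 : p ^ 4 ≤ p ^ e p := Nat.pow_le_pow_right (hd.prime p hp).pos (by omega)
      have h5 := hM p hp
      have h6 := hx4 p hxp
      have h7 : p ^ e p ≤ M := h5
      omega
    rw [Nat.not_odd_iff_even] at ho
    obtain ⟨k, hk⟩ := ho
    have h8 : 1 ≤ e p := h1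
    omega
  have hcover : S \ T2 ⊆ A0 ∪ (A1 ∪ (Ao ∪ T1)) := by
    intro p hp
    obtain ⟨h1, h2⟩ := mem_sdiff.1 hp
    simp only [mem_union, hA0, hA1, hAo, hT1, hT2, mem_filter] at h2 ⊢
    by_cases h3 : p ≤ y
    · exact Or.inl ⟨h1, h3⟩
    · by_cases h4 : p ≤ x
      · exact Or.inr (Or.inl ⟨h1, by omega, h4⟩)
      · by_cases h5 : Odd (e p)
        · exact Or.inr (Or.inr (Or.inl ⟨h1, by omega, h5⟩))
        · refine Or.inr (Or.inr (Or.inr ⟨h1, by omega, h5, ?_⟩))
          have h6 : ¬ p % 3 = 2 := fun h6 => h2 ⟨h1, by omega, h5, h6⟩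
          have h7 : ¬ p % 3 = 0 := by
            intro h7
            have h8 : 3 ∣ p := Nat.dvd_of_mod_eq_zero h7
            have h9 := (Nat.prime_dvd_prime_iff_eq Nat.prime_three (hd.prime p h1)).1 h8
            omega
          omega
  have hcA0 : A0.card ≤ y := by
    have : A0 ⊆ Icc 1 y := by
      intro p hp
      obtain ⟨h1, h2⟩ := mem_filter.1 hp
      exact mem_Icc.2 ⟨(hd.prime p h1).pos, h2⟩
    simpa using card_le_card this
  have hcA1 : (A1.card : ℝ) ≤ C1 * (x / Real.log x ^ 2) := by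
    refine le_trans ?_ (hcnt N hodd hperf x (by omega))
    have : A1 ⊆ {p ∈ N.primeFactors | p ≤ x ∧ (N.factorization p + 1).minFac ≤ 8} := by
      intro p hp
      obtain ⟨h1, h2, h3⟩ := mem_filter.1 hp
      refine mem_filter.2 ⟨h1, h3, ?_⟩
      have h4 : e p < 8 := by
        by_contra h5
        have h6 : p ^ 8 ≤ p ^ e p := Nat.pow_le_pow_right (hd.prime p h1).pos (by omega)
        have h7 : p ^ e p ≤ M := hM p h1
        have h8 := hy8 p h2
        omega
      have h5 : (N.factorization p + 1).minFac ≤ N.factorization p + 1 :=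
        Nat.minFac_le (by omega)
      have h6 : N.factorization p < 8 := h4
      omega
    exact_mod_cast card_le_card this
  have hcAo : Ao.card ≤ 1 := by
    rw [card_le_one]
    intro a ha b hb
    obtain ⟨h1, _, h2⟩ := mem_filter.1 ha
    obtain ⟨h3, _, h4⟩ := mem_filter.1 hb
    exact one_odd hd h1 h3 h2 h4
  have hcT1 : 3 ^ T1.card ≤ M := by
    apply T1_bound hd (filter_subset _ _) _ _ hM hM1
    · intro p hp
      obtain ⟨h1, h2, h3, _⟩ := mem_filter.1 hp
      exact hexp p h1 h2 h3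
    · intro p hp
      exact (mem_filter.1 hp).2.2.2
  have hT2b : ∏ p ∈ T2, p ^ e p ≤ ∏ p ∈ S \ T2, p ^ e p := by
    apply T2_bound hd (filter_subset _ _)
    · intro p hp
      obtain ⟨h1, h2, h3, _⟩ := mem_filter.1 hp
      exact hexp p h1 h2 h3
    · intro p hp
      exact (mem_filter.1 hp).2.2.2
  -- the bound for `N`
  have hprodZ : ∏ p ∈ S \ T2, p ^ e p ≤ M ^ (S \ T2).card := by
    rw [← Finset.prod_const]
    exact Finset.prod_le_prod' fun p hp => hM p (mem_sdiff.1 hp).1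
  have hNle : N ≤ (M ^ (S \ T2).card) ^ 2 := by
    calc N = (∏ p ∈ S \ T2, p ^ e p) * ∏ p ∈ T2, p ^ e p := by
          rw [Finset.prod_sdiff (filter_subset _ _)]; exact hNe.symm
      _ ≤ (M ^ (S \ T2).card) * (M ^ (S \ T2).card) :=
          Nat.mul_le_mul hprodZ (hT2b.trans hprodZ)
      _ = _ := by ring
  have hMr : (1 : ℝ) ≤ M := by exact_mod_cast hM1
  have hlM : 0 ≤ Real.log M := Real.log_nonneg hMr
  have hNr : (0 : ℝ) < N := by exact_mod_cast hperf.2
  have hlogN : Real.log N ≤ 2 * ((S \ T2).card * Real.log M) := by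
    have h1 : (N : ℝ) ≤ ((M : ℝ) ^ (S \ T2).card) ^ 2 := by exact_mod_cast hNle
    calc Real.log N ≤ Real.log (((M : ℝ) ^ (S \ T2).card) ^ 2) := Real.log_le_log hNr h1
      _ = _ := by rw [Real.log_pow, Real.log_pow]; norm_num
  have hcard : ((S \ T2).card : ℝ) ≤ y + C1 * (x / Real.log x ^ 2) + 1 + T1.card := by
    have h1 : (S \ T2).card ≤ A0.card + (A1.card + (Ao.card + T1.card)) := by
      refine (card_le_card hcover).trans ((card_union_le _ _).trans ?_)
      refine Nat.add_le_add_left ((card_union_le _ _).trans ?_) _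
      exact Nat.add_le_add_left (card_union_le _ _) _
    have h2 : ((S \ T2).card : ℝ) ≤ A0.card + (A1.card + (Ao.card + T1.card)) := by
      exact_mod_cast h1
    have h3 : (A0.card : ℝ) ≤ y := by exact_mod_cast hcA0
    have h4 : (Ao.card : ℝ) ≤ 1 := by exact_mod_cast hcAo
    linarith
  -- real inequalities
  have hX3 : (3 : ℝ) ≤ x := by exact_mod_cast hx3
  set l := Real.log x with hl
  have hl1 : 1 ≤ l := by
    rw [hl, Real.le_log_iff_exp_le (by linarith)]
    exact Real.exp_one_lt_three.le.trans hX3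
  have hT1l : (T1.card : ℝ) ≤ Real.log M := by
    have h1 : ((3 : ℝ)) ^ T1.card ≤ M := by exact_mod_cast hcT1
    have h2 := Real.log_le_log (by positivity) h1
    rw [Real.log_pow] at h2
    have h3 : (1 : ℝ) ≤ Real.log 3 := by
      rw [Real.le_log_iff_exp_le (by norm_num)]
      exact Real.exp_one_lt_three.le
    have h4 : (T1.card : ℝ) * 1 ≤ T1.card * Real.log 3 :=
      mul_le_mul_of_nonneg_left h3 (Nat.cast_nonneg _)
    linarith
  have hlMx : Real.log M ≤ 8 * l := by
    have h1 : M < (x + 1) ^ 4 := hx4 (x + 1) (by omega)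
    have h2 : M ≤ (x ^ 2) ^ 4 := h1.le.trans (Nat.pow_le_pow_left (by nlinarith) 4)
    have h3 : (M : ℝ) ≤ ((x : ℝ) ^ 2) ^ 4 := by exact_mod_cast h2
    calc Real.log M ≤ Real.log (((x : ℝ) ^ 2) ^ 4) := Real.log_le_log (by linarith) h3
      _ = 8 * l := by rw [← pow_mul, Real.log_pow, hl]; norm_num
  have hl4 : l ^ 4 ≤ 256 * x := by
    have h1 : l ≤ (x : ℝ) ^ (1 / 4 : ℝ) / (1 / 4) := Real.log_le_rpow_div (by linarith) (by norm_num)
    have h2 : l ^ 4 ≤ ((x : ℝ) ^ (1 / 4 : ℝ) / (1 / 4)) ^ 4 := pow_le_pow_left₀ (by linarith) h1 4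
    have h3 : ((x : ℝ) ^ (1 / 4 : ℝ)) ^ 4 = x := by
      rw [← Real.rpow_natCast, ← Real.rpow_mul (by linarith)]; norm_num
    calc l ^ 4 ≤ ((x : ℝ) ^ (1 / 4 : ℝ) / (1 / 4)) ^ 4 := h2
      _ = ((x : ℝ) ^ (1 / 4 : ℝ)) ^ 4 * 256 := by ring
      _ = _ := by rw [h3]; ring
  have hyx : (y : ℝ) ^ 2 ≤ x := by
    have : y ^ 2 ≤ x := Nat.sqrt_le' x
    exact_mod_cast this
  have hyl : (y : ℝ) * l ^ 2 ≤ 16 * x := by
    refine (sq_le_sq₀ (by positivity) (by positivity)).1 ?_
    calc ((y : ℝ) * l ^ 2) ^ 2 = (y : ℝ) ^ 2 * l ^ 4 := by ring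
      _ ≤ (x : ℝ) * (256 * x) := mul_le_mul hyx hl4 (by positivity) (by positivity)
      _ = _ := by ring
  have hl3 : l ^ 3 ≤ 256 * x := by
    calc l ^ 3 = l ^ 3 * 1 := by ring
      _ ≤ l ^ 3 * l := mul_le_mul_of_nonneg_left hl1 (by positivity)
      _ = l ^ 4 := by ring
      _ ≤ _ := hl4
  have hl2 : l ^ 2 ≤ 16 * x := by
    have h1 : (1 : ℝ) ≤ y := by
      have : 1 ≤ y := by rw [hy]; exact Nat.le_sqrt.2 (by omega)
      exact_mod_cast this
    calc l ^ 2 = 1 * l ^ 2 := by ring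
      _ ≤ y * l ^ 2 := mul_le_mul_of_nonneg_right h1 (by positivity)
      _ ≤ _ := hyl
  have hl0 : 0 < l := by linarith
  calc Real.log N ≤ 2 * ((S \ T2).card * Real.log M) := hlogN
    _ ≤ 2 * ((y + C1 * (x / l ^ 2) + 1 + 8 * l) * (8 * l)) := by
        apply mul_le_mul_of_nonneg_left _ (by norm_num)
        apply mul_le_mul _ hlMx hlM (by positivity)
        linarith
    _ = 16 * ((y * l ^ 2 + C1 * x + l ^ 2 + 8 * l ^ 3) / l) := by
        field_simp
        norm_num
    _ ≤ 16 * ((16 * x + C1 * x + 16 * x + 8 * (256 * x)) / l) := by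
        apply mul_le_mul_of_nonneg_left _ (by norm_num)
        apply div_le_div_of_nonneg_right _ hl0.le
        linarith
    _ = 16 * (2080 + C1) * (x / l) := by ring

/-- **Main theorem.**  There is a constant `C` such that the following holds.  Let `N` be an odd perfect
number and let all the prime power components `p ^ v_p(N)` of `N` be at most `M`.  Then
`(log N · log log N) ^ 4 ≤ C M`. -/
theorem result : ∃ C : ℝ, 0 < C ∧ ∀ N : ℕ, Odd N → N.Perfect → ∀ M : ℕ,
    (∀ p ∈ N.primeFactors, p ^ N.factorization p ≤ M) →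
    (Real.log N * Real.log (Real.log N)) ^ 4 ≤ C * M := by
  obtain ⟨K, hK, h⟩ := main
  refine ⟨(K * (Real.log K + 1)) ^ 4 * 81, ?_, fun N hodd hperf M hM => ?_⟩
  · have := Real.log_nonneg hK
    positivity
  have h1 := h N hodd hperf M hM _ rfl
  set x := max 3 (Nat.sqrt (Nat.sqrt M)) with hx
  have hx3 : 3 ≤ x := le_max_left _ _
  have hX3 : (3 : ℝ) ≤ x := by exact_mod_cast hx3
  have hlK := Real.log_nonneg hK
  set l := Real.log x with hl
  have hl1 : 1 ≤ l := by
    rw [hl, Real.le_log_iff_exp_le (by linarith)]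
    exact Real.exp_one_lt_three.le.trans hX3
  have hl0 : 0 < l := by linarith
  have hsum := (Nat.perfect_iff_sum_divisors_eq_two_mul hperf.2).1 hperf
  have hN3 : 3 ≤ N := by
    have h2 := hperf.2
    have h3 : N ≠ 1 := by rintro rfl; simp at hsum
    have h4 : N ≠ 2 := by rintro rfl; exact absurd hodd (by decide)
    omega
  have hN3r : (3 : ℝ) ≤ N := by exact_mod_cast hN3
  have hL1 : 1 ≤ Real.log N := by
    rw [Real.le_log_iff_exp_le (by linarith)]
    exact Real.exp_one_lt_three.le.trans hN3r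
  have hLL0 : 0 ≤ Real.log (Real.log N) := Real.log_nonneg hL1
  have hM1 : 1 ≤ M := by
    have hN1 : N ≠ 1 := by omega
    have hq : N.minFac ∈ N.primeFactors :=
      Nat.mem_primeFactors.2 ⟨Nat.minFac_prime hN1, Nat.minFac_dvd N, by omega⟩
    exact (Nat.one_le_pow _ _ (Nat.minFac_prime hN1).pos).trans (hM _ hq)
  have hx4 : x ^ 4 ≤ 81 * M := by
    rcases le_total (Nat.sqrt (Nat.sqrt M)) 3 with h2 | h2
    · have : x = 3 := by rw [hx]; exact max_eq_left h2
      rw [this]; omega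
    · have h3 : x = Nat.sqrt (Nat.sqrt M) := by rw [hx]; exact max_eq_right h2
      have h4 : (Nat.sqrt (Nat.sqrt M)) ^ 2 ≤ Nat.sqrt M := Nat.sqrt_le' _
      have h5 : (Nat.sqrt M) ^ 2 ≤ M := Nat.sqrt_le' _
      have h6 : x ^ 4 ≤ M := by
        rw [h3]
        calc Nat.sqrt (Nat.sqrt M) ^ 4 = (Nat.sqrt (Nat.sqrt M) ^ 2) ^ 2 := by ring
          _ ≤ (Nat.sqrt M) ^ 2 := Nat.pow_le_pow_left h4 2
          _ ≤ M := h5
      omega
  have h2 : Real.log N ≤ K * x := by
    refine h1.trans (mul_le_mul_of_nonneg_left ?_ (by linarith))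
    exact div_le_self (by linarith) hl1
  have h3 : Real.log (Real.log N) ≤ (Real.log K + 1) * l := by
    calc Real.log (Real.log N) ≤ Real.log (K * x) := Real.log_le_log (by linarith) h2
      _ = Real.log K + l := Real.log_mul (by linarith) (by linarith)
      _ ≤ Real.log K * l + l := by
          have := mul_le_mul_of_nonneg_left hl1 hlK
          linarith
      _ = _ := by ring
  have h4 : Real.log N * Real.log (Real.log N) ≤ K * (Real.log K + 1) * x := by
    calc Real.log N * Real.log (Real.log N) ≤ (K * (x / l)) * ((Real.log K + 1) * l) :=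
          mul_le_mul h1 h3 hLL0 (by positivity)
      _ = _ := by field_simp
  calc (Real.log N * Real.log (Real.log N)) ^ 4 ≤ (K * (Real.log K + 1) * x) ^ 4 :=
        pow_le_pow_left₀ (mul_nonneg (by linarith) hLL0) h4 4
    _ = (K * (Real.log K + 1)) ^ 4 * (x : ℝ) ^ 4 := by ring
    _ ≤ (K * (Real.log K + 1)) ^ 4 * (81 * M) := by
        apply mul_le_mul_of_nonneg_left _ (by positivity)
        exact_mod_cast hx4
    _ = _ := by ring

end Pool.Agent.Results.MP_f02ea4_nt.LargestComponent
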