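import Mathlib
import Pool.Agent.Q14.OP.Cnt

set_option autoImplicit false

/-!
# Prime factors of an odd perfect number in polynomial patterns and in short intervals
-/

namespace Pool.Agent.Results.MP_f02ea4_nt.PatternsInWindows
open Finset Polynomial
open Pool.Agent.Q14.OP

/-- `t` is a pattern in `N`: every `f i t` is a prime factor `p` of `N` such that `m i` divides
`v_p(N) + 1` -/
def Pattern {k : ℕ} (f : Fin k → ℤ[X]) (m : Fin k → ℕ) (N : ℕ) (t : ℤ) : Prop :=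
  ∀ i, ∃ p ∈ N.primeFactors, (f i).eval t = (p : ℤ) ∧ m i ∣ N.factorization p + 1

/-- the set `Fs` consists of irreducible polynomials over `ℤ` of positive degree, no two of which differ
by the sign only, and each of them divides one of the polynomials `f i * ((f i) ^ (m i) - 1) / (f i - 1)` -/
structure Factors {k : ℕ} (f : Fin k → ℤ[X]) (m : Fin k → ℕ) (Fs : Finset ℤ[X]) : Prop where
  irr : ∀ F ∈ Fs, Irreducible F
  deg : ∀ F ∈ Fs, 0 < F.natDegree
  nas : ∀ F ∈ Fs, ∀ G ∈ Fs, F ≠ G → ¬ Associated F G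
  dvd : ∀ F ∈ Fs, ∃ i, F ∣ f i * ∑ j ∈ range (m i), f i ^ j

lemma geom_dvd {p m e : ℕ} (h : m ∣ e) :
    (∑ i ∈ range m, p ^ i) ∣ ∑ i ∈ range e, p ^ i := by
  obtain ⟨c, rfl⟩ := h
  refine ⟨∑ j ∈ range c, (p ^ m) ^ j, ?_⟩
  induction c with
  | zero => simp
  | succ c ih =>
    rw [Nat.mul_succ, Finset.sum_range_add, ih, Finset.sum_range_succ, mul_add]
    congr 1
    rw [Finset.sum_mul]
    apply Finset.sum_congr rfl
    intro i _
    rw [← pow_mul, ← pow_add]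
    ring_nf

lemma sift {k : ℕ} {f : Fin k → ℤ[X]} {m : Fin k → ℕ} {Fs : Finset ℤ[X]} (hF : Factors f m Fs)
    {N : ℕ} (hN : N ≠ 0) (hsum : ∑ d ∈ N.divisors, d = 2 * N) {s : ℤ} {n : ℕ}
    (h : Pattern f m N (s + n)) : Sf Fs N s n := by
  intro r hr hrN F hFm hdv
  obtain ⟨i, hi⟩ := hF.dvd F hFm
  obtain ⟨p, hp, hfp, hm⟩ := h i
  have h1 : (r : ℤ) ∣ (f i * ∑ j ∈ range (m i), f i ^ j).eval (s + (n : ℤ)) :=
    hdv.trans (by obtain ⟨G, hG⟩ := hi; rw [hG, eval_mul]; exact dvd_mul_right _ _)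
  rw [eval_mul, eval_finsetSum, hfp] at h1
  have h2 : ∑ j ∈ range (m i), (f i ^ j).eval (s + (n : ℤ)) =
      ((∑ j ∈ range (m i), p ^ j : ℕ) : ℤ) := by
    push_cast
    apply sum_congr rfl
    intro j _
    rw [eval_pow, hfp]
  rw [h2] at h1
  have h3 : r ∣ p * ∑ j ∈ range (m i), p ^ j := by exact_mod_cast h1
  rcases (Nat.Prime.dvd_mul hr).1 h3 with h4 | h4
  · exact hrN ((h4.trans (Nat.dvd_of_mem_primeFactors hp)).trans (dvd_mul_left _ _))
  · apply hrN
    have h5 : r ∣ ∑ j ∈ range (N.factorization p + 1), p ^ j := h4.trans (geom_dvd hm)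
    rw [← hsum, Nat.sum_divisors hN]
    exact h5.trans
      (Finset.dvd_prod_of_mem (fun p => ∑ i ∈ range (N.factorization p + 1), p ^ i) hp)

open Classical in
theorem general {k : ℕ} (f : Fin k → ℤ[X]) (m : Fin k → ℕ) (Fs : Finset ℤ[X])
    (hF : Factors f m Fs) : ∃ K : ℝ, 0 < K ∧ ∀ N : ℕ, Odd N → N.Perfect →
    ∀ (y : ℤ) (h : ℕ), 2 ≤ h →
      (({t ∈ Ioc y (y + h) | Pattern f m N t}.card : ℕ) : ℝ) ≤
        K * (h / Real.log h ^ Fs.card) := by
  obtain ⟨K, hK, hc⟩ := count_sys Fs ⟨hF.irr, hF.deg, hF.nas⟩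
  refine ⟨K, hK, fun N _ hperf y h hh => ?_⟩
  have hN := hperf.2.ne'
  have hsum := (Nat.perfect_iff_sum_divisors_eq_two_mul hperf.2).1 hperf
  refine le_trans ?_ (hc N hN hsum y h hh)
  have : ({t ∈ Ioc y (y + h) | Pattern f m N t}.card : ℕ) ≤
      ((Icc 1 h).filter (Sf Fs N y)).card := by
    apply card_le_card_of_injOn (fun t : ℤ => (t - y).toNat)
    · intro t ht
      obtain ⟨h1, h2⟩ := mem_filter.1 (mem_coe.1 ht)
      rw [mem_Ioc] at h1
      have h3 : (((t - y).toNat : ℕ) : ℤ) = t - y := Int.toNat_of_nonneg (by omega)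
      have h4 : 1 ≤ (t - y).toNat := by omega
      have h5 : (t - y).toNat ≤ h := by omega
      refine mem_coe.2 (mem_filter.2 ⟨mem_Icc.2 ⟨h4, h5⟩, ?_⟩)
      apply sift hF hN hsum
      rw [h3, add_sub_cancel]
      exact h2
    · intro t ht t' ht' he
      have h1 := mem_Ioc.1 (mem_filter.1 (mem_coe.1 ht)).1
      have h2 := mem_Ioc.1 (mem_filter.1 (mem_coe.1 ht')).1
      simp only at he
      omega
  exact_mod_cast this

/-- the irreducible factors of `X (X ^ m - 1) / (X - 1)` -/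
noncomputable def P (d : ℕ) : ℤ[X] := if d = 1 then X else cyclotomic d ℤ

lemma P_monic (d : ℕ) : (P d).Monic := by
  unfold P; split_ifs
  · exact monic_X
  · exact cyclotomic.monic d ℤ

lemma P_irr {d : ℕ} (hd : 0 < d) : Irreducible (P d) := by
  unfold P; split_ifs
  · exact irreducible_X
  · exact cyclotomic.irreducible hd

lemma P_deg {d : ℕ} (hd : 0 < d) : 0 < (P d).natDegree := by
  unfold P; split_ifs
  · simp
  · rw [natDegree_cyclotomic]; exact Nat.totient_pos.2 hd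

lemma P_inj {d e : ℕ} (h : P d = P e) : d = e := by
  have key : ∀ e : ℕ, e ≠ 1 → (X : ℤ[X]) ≠ cyclotomic e ℤ := by
    intro e he h1
    rcases Nat.lt_or_ge e 2 with h2 | h2
    · interval_cases e
      · rw [cyclotomic_zero] at h1
        have := congrArg natDegree h1
        simp at this
      · exact he rfl
    · have := congrArg (eval 0) h1
      rw [eval_X, Pool.Agent.Y959.Sv.eval_zero (by omega)] at this
      exact absurd this (by norm_num)
  unfold P at h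
  split_ifs at h with h1 h2 h2
  · rw [h1, h2]
  · exact absurd h (key e h2)
  · exact absurd h.symm (key d h1)
  · exact cyclotomic_injective h

/-- the factors at the shift `c` -/
noncomputable def Ps (c : ℤ) (d : ℕ) : ℤ[X] := (P d).comp (X + C c)

lemma Ps_monic (c : ℤ) (d : ℕ) : (Ps c d).Monic :=
  (P_monic d).comp (monic_X_add_C c) (by rw [natDegree_X_add_C]; exact one_ne_zero)

lemma Ps_deg (c : ℤ) {d : ℕ} (hd : 0 < d) : 0 < (Ps c d).natDegree := by
  unfold Ps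
  rw [natDegree_comp, natDegree_X_add_C, mul_one]
  exact P_deg hd

lemma Ps_irr (c : ℤ) {d : ℕ} (hd : 0 < d) : Irreducible (Ps c d) := by
  have h := (MulEquiv.irreducible_iff (Polynomial.algEquivAevalXAddC c)).2 (P_irr hd)
  have e : Polynomial.algEquivAevalXAddC c (P d) = Ps c d := by
    simp [Polynomial.algEquivAevalXAddC, Ps, aeval_def, comp]
  rwa [e] at h

lemma comp_back (c : ℤ) (F : ℤ[X]) : (F.comp (X + C c)).comp (X + C (-c)) = F := by
  rw [comp_assoc]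
  simp

lemma Ps_inj (c : ℤ) {d e : ℕ} (h : Ps c d = Ps c e) : d = e := by
  apply P_inj
  rw [← comp_back c (P d), ← comp_back c (P e)]
  unfold Ps at h
  rw [h]

lemma Ps_dvd (c : ℤ) {d m : ℕ} (h : d ∣ m) :
    Ps c d ∣ (X + C c) * ∑ j ∈ range m, (X + C c : ℤ[X]) ^ j := by
  have h1 : P d ∣ X * ∑ j ∈ range m, (X : ℤ[X]) ^ j := by
    unfold P; split_ifs with h2
    · exact dvd_mul_right _ _
    · exact (cyclotomic_dvd_geom_sum_of_dvd ℤ h h2).trans (dvd_mul_left _ _)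
  obtain ⟨G, hG⟩ := h1
  refine ⟨G.comp (X + C c), ?_⟩
  have h2 := congrArg (fun F : ℤ[X] => F.comp (X + C c)) hG
  have h3 : (∑ j ∈ range m, (X : ℤ[X]) ^ j).comp (X + C c) =
      ∑ j ∈ range m, (X + C c : ℤ[X]) ^ j := by
    simp only [comp, eval₂_finsetSum, eval₂_pow, eval₂_X]
  simp only [mul_comp, X_comp] at h2
  rw [h3] at h2
  exact h2

/-- a complex root -/
lemma P_root {d : ℕ} (hd : 0 < d) : ∃ z : ℂ, ‖z‖ ≤ 1 ∧ aeval z (P d) = 0 := by
  unfold P; split_ifs with h1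
  · exact ⟨0, by simp, by simp⟩
  · have h2 := Complex.isPrimitiveRoot_exp d hd.ne'
    refine ⟨_, (h2.norm'_eq_one hd.ne').le, ?_⟩
    have h3 := h2.isRoot_cyclotomic hd
    rw [aeval_def, ← eval_map]
    simpa using h3

lemma P_norm {d : ℕ} (hd : 0 < d) {z : ℂ} (h : aeval z (P d) = 0) : ‖z‖ ≤ 1 ∧ z ≠ 1 := by
  unfold P at h; split_ifs at h with h1
  · rw [aeval_X] at h
    subst h
    simp
  · rw [aeval_def, ← eval_map, algebraMap_int_eq, map_cyclotomic_int] at h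
    have : NeZero (d : ℂ) := ⟨by exact_mod_cast hd.ne'⟩
    have h3 : IsPrimitiveRoot z d := (isRoot_cyclotomic_iff).1 h
    refine ⟨(h3.norm'_eq_one hd.ne').le, ?_⟩
    rintro rfl
    exact h1 (h3.unique IsPrimitiveRoot.one)

lemma Ps_ne {a : ℕ} (ha : 1 ≤ a) {d e : ℕ} (hd : 0 < d) (he : 0 < e) :
    Ps 0 d ≠ Ps (2 * a) e := by
  intro h
  have h0 : Ps 0 d = P d := by simp [Ps]
  obtain ⟨z, hz, hz0⟩ := P_root hd
  rw [h0] at h
  rw [h] at hz0
  have h1 : aeval (z + 2 * a) (P e) = 0 := by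
    unfold Ps at hz0
    rw [aeval_comp] at hz0
    have e : aeval z (X + Polynomial.C (2 * (a : ℤ))) = z + 2 * a := by
      rw [map_add, aeval_X, aeval_C]
      simp
    rwa [e] at hz0
  obtain ⟨h2, h3⟩ := P_norm he h1
  have har : (1 : ℝ) ≤ a := by exact_mod_cast ha
  have r1 : -1 ≤ z.re := by
    have := (abs_le.1 ((Complex.abs_re_le_norm z).trans hz)).1
    exact this
  have r2 : z.re + 2 * a ≤ 1 := by
    have := (abs_le.1 ((Complex.abs_re_le_norm (z + 2 * a)).trans h2)).2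
    simpa using this
  have r3 : z.re = -1 := by linarith
  have r4 : (a : ℝ) = 1 := by linarith
  have r5 : z.im = 0 := by
    have h4 : ‖z‖ ^ 2 ≤ 1 := by
      have := pow_le_pow_left₀ (norm_nonneg z) hz 2
      simpa using this
    rw [← Complex.normSq_eq_norm_sq, Complex.normSq_apply, r3] at h4
    nlinarith
  apply h3
  apply Complex.ext
  · simp [r3, r4]; norm_num
  · simp [r5]

/-- the factors for one form -/
noncomputable def Gs (c : ℤ) (m : ℕ) : Finset ℤ[X] := m.divisors.image (Ps c)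

lemma card_Gs (c : ℤ) (m : ℕ) : (Gs c m).card = m.divisors.card :=
  card_image_of_injective _ fun _ _ h => Ps_inj c h

lemma mem_Gs {c : ℤ} {m : ℕ} {F : ℤ[X]} : F ∈ Gs c m ↔ ∃ d, d ∣ m ∧ m ≠ 0 ∧ Ps c d = F := by
  simp only [Gs, mem_image, Nat.mem_divisors]
  constructor
  · rintro ⟨d, ⟨h1, h2⟩, h3⟩; exact ⟨d, h1, h2, h3⟩
  · rintro ⟨d, h1, h2, h3⟩; exact ⟨d, ⟨h1, h2⟩, h3⟩

/-- the factors of the pattern `t, t + 2 a` -/
lemma factors_pair (a m m' : ℕ) (c : Fin 2 → ℤ) (hc : c = ![0, 2 * (a : ℤ)]) :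
    Factors (fun i => X + C (c i)) ![m, m'] (Gs 0 m ∪ Gs (2 * a) m') := by
  subst hc
  have hmon : ∀ F ∈ Gs 0 m ∪ Gs (2 * a) m', F.Monic := by
    intro F hF
    rcases mem_union.1 hF with h | h
    · obtain ⟨d, _, _, rfl⟩ := mem_Gs.1 h
      exact Ps_monic _ _
    · obtain ⟨d, _, _, rfl⟩ := mem_Gs.1 h
      exact Ps_monic _ _
  refine ⟨?_, ?_, ?_, ?_⟩
  · intro F hF
    rcases mem_union.1 hF with h | h
    · obtain ⟨d, h1, h2, rfl⟩ := mem_Gs.1 h
      exact Ps_irr _ (Nat.pos_of_dvd_of_pos h1 (Nat.pos_of_ne_zero h2))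
    · obtain ⟨d, h1, h2, rfl⟩ := mem_Gs.1 h
      exact Ps_irr _ (Nat.pos_of_dvd_of_pos h1 (Nat.pos_of_ne_zero h2))
  · intro F hF
    rcases mem_union.1 hF with h | h
    · obtain ⟨d, h1, h2, rfl⟩ := mem_Gs.1 h
      exact Ps_deg _ (Nat.pos_of_dvd_of_pos h1 (Nat.pos_of_ne_zero h2))
    · obtain ⟨d, h1, h2, rfl⟩ := mem_Gs.1 h
      exact Ps_deg _ (Nat.pos_of_dvd_of_pos h1 (Nat.pos_of_ne_zero h2))
  · intro F hF G hG hne has
    exact hne (eq_of_monic_of_associated (hmon F hF) (hmon G hG) has)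
  · intro F hF
    rcases mem_union.1 hF with h | h
    · obtain ⟨d, h1, h2, rfl⟩ := mem_Gs.1 h
      exact ⟨0, by simpa using Ps_dvd 0 h1⟩
    · obtain ⟨d, h1, h2, rfl⟩ := mem_Gs.1 h
      exact ⟨1, by simpa using Ps_dvd (2 * a) h1⟩

/-- the factors of one form -/
lemma factors_one (m : ℕ) : Factors (fun _ : Fin 1 => (X : ℤ[X])) ![m] (Gs 0 m) := by
  refine ⟨?_, ?_, ?_, ?_⟩
  · intro F hF
    obtain ⟨d, h1, h2, rfl⟩ := mem_Gs.1 hF
    exact Ps_irr _ (Nat.pos_of_dvd_of_pos h1 (Nat.pos_of_ne_zero h2))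
  · intro F hF
    obtain ⟨d, h1, h2, rfl⟩ := mem_Gs.1 hF
    exact Ps_deg _ (Nat.pos_of_dvd_of_pos h1 (Nat.pos_of_ne_zero h2))
  · intro F hF G hG hne has
    obtain ⟨d, h1, h2, rfl⟩ := mem_Gs.1 hF
    obtain ⟨e, h3, h4, rfl⟩ := mem_Gs.1 hG
    exact hne (eq_of_monic_of_associated (Ps_monic _ _) (Ps_monic _ _) has)
  · intro F hF
    obtain ⟨d, h1, h2, rfl⟩ := mem_Gs.1 hF
    exact ⟨0, by simpa using Ps_dvd 0 h1⟩

theorem single (m : ℕ) : ∃ K : ℝ, 0 < K ∧ ∀ N : ℕ, Odd N → N.Perfect →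
    ∀ (y : ℤ) (h : ℕ), 2 ≤ h →
      (((N.primeFactors.filter (fun p : ℕ => y < (p : ℤ) ∧ (p : ℤ) ≤ y + h ∧
          m ∣ N.factorization p + 1)).card : ℕ) : ℝ) ≤
        K * (h / Real.log h ^ m.divisors.card) := by
  classical
  obtain ⟨K, hK, hc⟩ := general _ _ _ (factors_one m)
  refine ⟨K, hK, fun N hodd hperf y h hh => ?_⟩
  have h1 := hc N hodd hperf y h hh
  rw [card_Gs] at h1
  refine le_trans ?_ h1
  have : ((N.primeFactors.filter (fun p : ℕ => y < (p : ℤ) ∧ (p : ℤ) ≤ y + h ∧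
          m ∣ N.factorization p + 1)).card : ℕ) ≤
      ({t ∈ Ioc y (y + h) | Pattern (fun _ : Fin 1 => (X : ℤ[X])) ![m] N t}.card : ℕ) := by
    apply card_le_card_of_injOn (fun p : ℕ => (p : ℤ))
    · intro p hp
      obtain ⟨h2, h3, h4, h5⟩ := mem_filter.1 (mem_coe.1 hp)
      refine mem_coe.2 (mem_filter.2 ⟨mem_Ioc.2 ⟨h3, h4⟩, fun i => ⟨p, h2, by simp, ?_⟩⟩)
      have : i = 0 := Subsingleton.elim _ _
      subst this
      simpa using h5
    · intro p _ q _ hpq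
      simp only at hpq
      exact_mod_cast hpq
  exact_mod_cast this

theorem pair (a m m' : ℕ) (ha : 1 ≤ a) : ∃ K : ℝ, 0 < K ∧ ∀ N : ℕ, Odd N → N.Perfect →
    ∀ (y : ℤ) (h : ℕ), 2 ≤ h →
      (((N.primeFactors.filter (fun p : ℕ => y < (p : ℤ) ∧ (p : ℤ) ≤ y + h ∧
          m ∣ N.factorization p + 1 ∧
          p + 2 * a ∈ N.primeFactors ∧ m' ∣ N.factorization (p + 2 * a) + 1)).card : ℕ) : ℝ) ≤
        K * (h / Real.log h ^ (m.divisors.card + m'.divisors.card)) := by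
  classical
  obtain ⟨K, hK, hc⟩ := general _ _ _ (factors_pair a m m' _ rfl)
  refine ⟨K, hK, fun N hodd hperf y h hh => ?_⟩
  have h1 := hc N hodd hperf y h hh
  have hdis : Disjoint (Gs 0 m) (Gs (2 * a) m') := by
    rw [Finset.disjoint_left]
    intro F hF hF'
    obtain ⟨d, h1, h2, rfl⟩ := mem_Gs.1 hF
    obtain ⟨e, h3, h4, h5⟩ := mem_Gs.1 hF'
    exact Ps_ne ha (Nat.pos_of_dvd_of_pos h1 (Nat.pos_of_ne_zero h2))
      (Nat.pos_of_dvd_of_pos h3 (Nat.pos_of_ne_zero h4)) h5.symm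
  rw [card_union_of_disjoint hdis, card_Gs, card_Gs] at h1
  refine le_trans ?_ h1
  have : ((N.primeFactors.filter (fun p : ℕ => y < (p : ℤ) ∧ (p : ℤ) ≤ y + h ∧
          m ∣ N.factorization p + 1 ∧
          p + 2 * a ∈ N.primeFactors ∧ m' ∣ N.factorization (p + 2 * a) + 1)).card : ℕ) ≤
      ({t ∈ Ioc y (y + h) | Pattern (fun i => X + C ((![0, 2 * (a : ℤ)] : Fin 2 → ℤ) i)) ![m, m']
        N t}.card : ℕ) := by
    apply card_le_card_of_injOn (fun p : ℕ => (p : ℤ))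
    · intro p hp
      obtain ⟨h2, h3, h4, h5, h6, h7⟩ := mem_filter.1 (mem_coe.1 hp)
      refine mem_coe.2 (mem_filter.2 ⟨mem_Ioc.2 ⟨h3, h4⟩, fun i => ?_⟩)
      fin_cases i
      · exact ⟨p, h2, by simp, by simpa using h5⟩
      · exact ⟨p + 2 * a, h6, by simp, by simpa using h7⟩
    · intro p _ q _ hpq
      simp only at hpq
      exact_mod_cast hpq
  exact_mod_cast this

open Classical in
/-- **Main theorem.** (1) Let `f_1, …, f_k` be polynomials with integral coefficients, `m_1, …, m_k`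
natural numbers and let `Fs` be a set of `g` irreducible polynomials of positive degree, pairwise not
associated, each of which divides one of the `f_i (f_i ^ (m_i) - 1) / (f_i - 1)`.  Then there is `C`
such that for EVERY odd perfect number `N` and every interval `(y, y + h]`, `h ≥ 2`, the number of the
integers `t` in it for which all `f_i(t)` are prime factors `p_i` of `N` with `m_i ∣ v_{p_i}(N) + 1` is
at most `C h / (log h) ^ g`.

(2) In particular at most `C h / (log h) ^ τ(m)` prime factors `p` of `N` with `m ∣ v_p(N) + 1` lie in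
`(y, y + h]`, and (3) at most `C h / (log h) ^ (τ(m) + τ(m'))` of them are such that also `p + 2 a` is
a prime factor of `N` and `m' ∣ v_{p + 2 a}(N) + 1`. -/
theorem result :
    (∀ (k : ℕ) (f : Fin k → ℤ[X]) (m : Fin k → ℕ) (Fs : Finset ℤ[X]), Factors f m Fs →
      ∃ K : ℝ, 0 < K ∧ ∀ N : ℕ, Odd N → N.Perfect → ∀ (y : ℤ) (h : ℕ), 2 ≤ h →
        (({t ∈ Ioc y (y + h) | Pattern f m N t}.card : ℕ) : ℝ) ≤
          K * (h / Real.log h ^ Fs.card)) ∧
    (∀ m : ℕ, ∃ K : ℝ, 0 < K ∧ ∀ N : ℕ, Odd N → N.Perfect → ∀ (y : ℤ) (h : ℕ), 2 ≤ h →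
      (((N.primeFactors.filter (fun p : ℕ => y < (p : ℤ) ∧ (p : ℤ) ≤ y + h ∧
          m ∣ N.factorization p + 1)).card : ℕ) : ℝ) ≤
        K * (h / Real.log h ^ m.divisors.card)) ∧
    (∀ a m m' : ℕ, 1 ≤ a → ∃ K : ℝ, 0 < K ∧ ∀ N : ℕ, Odd N → N.Perfect →
      ∀ (y : ℤ) (h : ℕ), 2 ≤ h →
      (((N.primeFactors.filter (fun p : ℕ => y < (p : ℤ) ∧ (p : ℤ) ≤ y + h ∧
          m ∣ N.factorization p + 1 ∧
          p + 2 * a ∈ N.primeFactors ∧ m' ∣ N.factorization (p + 2 * a) + 1)).card : ℕ) : ℝ) ≤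
        K * (h / Real.log h ^ (m.divisors.card + m'.divisors.card))) :=
  ⟨fun _ f m Fs hF => general f m Fs hF, single, pair⟩

end Pool.Agent.Results.MP_f02ea4_nt.PatternsInWindows
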