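import Mathlib
import Pool.Agent.Q25.Opn.Ind

set_option autoImplicit false

/-!
# Odd perfect numbers and the prime factors of typical integers

Let `v_p(N)` be the exponent of the prime `p` in `N`. For a number `B` call a prime factor `p` of an odd
perfect number `N` *bad for* `N` if `v_p(N) + 1` has a prime factor which is at most `B` (for instance if
`v_p(N) < B`). The theorem says that, uniformly in ALL odd perfect numbers `N` (there is no bound for `N`
in terms of `x`), the bad primes do not occur among the prime factors of typical integers: for all but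
`O (x / (log x) ^ K)` integers `s ≤ x`, for every odd perfect number `N` at most `ε log log x` prime
factors of `s` are prime factors of `N` which are bad for `N`; and there are only
`O (x / (log x) ^ (1 - ε))` integers `s ≤ x` such that all prime factors of `s` are bad prime factors of
one and the same odd perfect number.

Proof: let `y₀` be large in terms of `B, K, ε`. If `l` is a prime factor of `v_p(N) + 1`, then no prime
`r ≤ y₀` which does not divide `2 N` divides `1 + p + ⋯ + p ^ (l - 1)`, and the prime factors of `N` are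
rare. A sieve of dimension one with additional classes for the primes `r ≤ y₀` shows that for each of the
at most `2 ^ y₀` sets of primes `r ≤ y₀` the bad primes lie in a set of primes of relative upper density
`O (1 / log y₀)`; then Rankin's method.
-/

namespace Pool.Agent.Results.MP_f02ea4_nt.TypicalIntegers

open Finset

open scoped Classical in
/-- **Main theorem.** Let `B` be a number and `ε > 0`.

(1) For every `K` there is a constant `C > 0` such that for all `x ≥ 3` at most `C x / (log x) ^ K` of the
integers `1 ≤ s ≤ x` have the property that for some odd perfect number `N` at least `ε log log x` prime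
factors `p` of `s` divide `N` and are such that the least prime factor of `v_p(N) + 1` is at most `B`.

(2) There is a constant `C > 0` such that for all `x ≥ 3` at most `C x / (log x) ^ (1 - ε)` of the integers
`1 ≤ s ≤ x` have the property that for some odd perfect number `N` all prime factors `p` of `s` divide `N`
and are such that the least prime factor of `v_p(N) + 1` is at most `B`. -/
theorem result (B : ℕ) (ε : ℝ) (hε : 0 < ε) :
    (∀ K : ℕ, ∃ C : ℝ, 0 < C ∧ ∀ x : ℕ, 3 ≤ x →
      (((Icc 1 x).filter (fun s : ℕ => ∃ N : ℕ, Odd N ∧ N.Perfect ∧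
        ε * Real.log (Real.log x) ≤ ((s.primeFactors.filter
          (fun p => p ∣ N ∧ (N.factorization p + 1).minFac ≤ B)).card : ℝ))).card : ℝ) ≤
        C * (x / Real.log x ^ K)) ∧
    (∃ C : ℝ, 0 < C ∧ ∀ x : ℕ, 3 ≤ x →
      (((Icc 1 x).filter (fun s : ℕ => ∃ N : ℕ, Odd N ∧ N.Perfect ∧
        ∀ p ∈ s.primeFactors, p ∣ N ∧ (N.factorization p + 1).minFac ≤ B)).card : ℝ) ≤
        C * (x / Real.log x ^ (1 - ε))) := by
  refine ⟨fun K => ?_, ?_⟩
  · obtain ⟨C, hC, h⟩ := Pool.Agent.Q25.Opn.few B K ε hε
    refine ⟨C, hC, fun x hx => le_trans ?_ (h x hx)⟩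
    have hsub : (Icc 1 x).filter (fun s : ℕ => ∃ N : ℕ, Odd N ∧ N.Perfect ∧
        ε * Real.log (Real.log x) ≤ ((s.primeFactors.filter
          (fun p => p ∣ N ∧ (N.factorization p + 1).minFac ≤ B)).card : ℝ)) ⊆
        (Icc 1 x).filter (fun s : ℕ => ∃ N : ℕ, N ≠ 0 ∧ ∑ d ∈ N.divisors, d = 2 * N ∧
        ε * Real.log (Real.log x) ≤ ((s.primeFactors.filter
          (fun p => p ∣ N ∧ (N.factorization p + 1).minFac ≤ B)).card : ℝ)) := by
      intro s hs
      obtain ⟨h1, N, _, hp, h2⟩ := mem_filter.1 hs
      exact mem_filter.2 ⟨h1, N, hp.2.ne',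
        (Nat.perfect_iff_sum_divisors_eq_two_mul hp.2).1 hp, h2⟩
    exact_mod_cast card_le_card hsub
  · obtain ⟨C, hC, h⟩ := Pool.Agent.Q25.Opn.allsmall B ε hε
    refine ⟨C, hC, fun x hx => le_trans ?_ (h x hx)⟩
    have hsub : (Icc 1 x).filter (fun s : ℕ => ∃ N : ℕ, Odd N ∧ N.Perfect ∧
        ∀ p ∈ s.primeFactors, p ∣ N ∧ (N.factorization p + 1).minFac ≤ B) ⊆
        (Icc 1 x).filter (fun s : ℕ => ∃ N : ℕ, N ≠ 0 ∧ ∑ d ∈ N.divisors, d = 2 * N ∧
        ∀ p ∈ s.primeFactors, p ∣ N ∧ (N.factorization p + 1).minFac ≤ B) := by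
      intro s hs
      obtain ⟨h1, N, _, hp, h2⟩ := mem_filter.1 hs
      exact mem_filter.2 ⟨h1, N, hp.2.ne',
        (Nat.perfect_iff_sum_divisors_eq_two_mul hp.2).1 hp, h2⟩
    exact_mod_cast card_le_card hsub

end Pool.Agent.Results.MP_f02ea4_nt.TypicalIntegers
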